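import Mathlib

/-!
TANK G, section E, helper58: E0 (finite additive closure of the roots), E1 (units outside the
boundary from the coefficients of a polynomial), E5 (orbits of length smaller than p).
-/

namespace Pool.Agent.TGE58

open Polynomial

universe u v

/-- A root of a polynomial with coefficients in a valuation ring whose leading coefficient is a
unit lies in the valuation ring. -/
theorem mem_of_root {L : Type u} [Field L] (W : ValuationSubring L) (s : L) (Q : L[X])
    (hne : Q ≠ 0) (hroot : Q.eval s = 0) (hc : ∀ i, Q.coeff i ∈ W)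
    (hl : (Q.leadingCoeff)⁻¹ ∈ W) : s ∈ W := by
  by_contra hs
  have hv : 1 < W.valuation s := by
    rw [← not_le, W.valuation_le_one_iff]
    exact hs
  have hlead : W.valuation Q.leadingCoeff = 1 := by
    apply le_antisymm
    · exact (W.valuation_le_one_iff _).2 (hc _)
    · have h1 : W.valuation (Q.leadingCoeff)⁻¹ ≤ 1 := (W.valuation_le_one_iff _).2 hl
      rw [map_inv₀] at h1
      have hne' : W.valuation Q.leadingCoeff ≠ 0 := by
        rw [Ne, W.valuation.zero_iff]
        exact leadingCoeff_ne_zero.2 hne
      exact (inv_le_one₀ (zero_lt_iff.2 hne')).1 h1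
  rw [eval_eq_sum_range, Finset.sum_range_succ] at hroot
  have h1 : Q.coeff Q.natDegree * s ^ Q.natDegree
      = - ∑ i ∈ Finset.range Q.natDegree, Q.coeff i * s ^ i := by
    rw [← add_eq_zero_iff_eq_neg, add_comm]
    exact hroot
  have h2 : W.valuation (Q.coeff Q.natDegree * s ^ Q.natDegree) = W.valuation s ^ Q.natDegree := by
    rw [map_mul, map_pow]
    have : W.valuation (Q.coeff Q.natDegree) = 1 := hlead
    rw [this, one_mul]
  have hs0 : W.valuation s ^ Q.natDegree ≠ 0 := pow_ne_zero _ (zero_lt_one.trans hv).ne'
  have h3 : W.valuation (∑ i ∈ Finset.range Q.natDegree, Q.coeff i * s ^ i)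
      < W.valuation s ^ Q.natDegree := by
    apply Valuation.map_sum_lt _ hs0
    intro i hi
    rw [Finset.mem_range] at hi
    rw [map_mul, map_pow]
    calc W.valuation (Q.coeff i) * W.valuation s ^ i ≤ 1 * W.valuation s ^ i := by
          gcongr
          exact (W.valuation_le_one_iff _).2 (hc i)
      _ = W.valuation s ^ i := one_mul _
      _ < W.valuation s ^ Q.natDegree := pow_lt_pow_right₀ hv hi
  have h4 : W.valuation (Q.coeff Q.natDegree * s ^ Q.natDegree)
      = W.valuation (∑ i ∈ Finset.range Q.natDegree, Q.coeff i * s ^ i) := by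
    rw [h1, Valuation.map_neg]
  rw [← h4, h2] at h3
  exact lt_irrefl _ h3

/-- E1: if every non-zero coefficient of a monic polynomial over `F` with non-zero constant
coefficient is a unit of the valuation ring `W` of `L`, then every root in `L` is a unit of `W`. -/
theorem unit_of_coeffs {F : Type u} {L : Type v} [Field F] [Field L] [Algebra F L]
    (W : ValuationSubring L) (s : L) (P : F[X]) (hP : P.Monic) (hroot : aeval s P = 0)
    (h0 : P.coeff 0 ≠ 0)
    (h : ∀ i, P.coeff i ≠ 0 →
      algebraMap F L (P.coeff i) ∈ W ∧ (algebraMap F L (P.coeff i))⁻¹ ∈ W) :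
    s ∈ W ∧ s⁻¹ ∈ W := by
  have hmem : ∀ i, algebraMap F L (P.coeff i) ∈ W := by
    intro i
    by_cases hi : P.coeff i = 0
    · rw [hi, map_zero]
      exact W.zero_mem
    · exact (h i hi).1
  have hroot' : (P.map (algebraMap F L)).eval s = 0 := by
    rw [eval_map]
    exact hroot
  have hs0 : s ≠ 0 := by
    rintro rfl
    rw [← coeff_zero_eq_eval_zero, coeff_map, map_eq_zero] at hroot'
    exact h0 hroot'
  refine ⟨?_, ?_⟩
  · apply mem_of_root W s (P.map (algebraMap F L)) _ hroot'
    · intro i
      rw [coeff_map]
      exact hmem i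
    · rw [(hP.map _).leadingCoeff, inv_one]
      exact W.one_mem
    · exact (hP.map _).ne_zero
  · letI : Invertible s := invertibleOfNonzero hs0
    have hrev : (P.map (algebraMap F L)).reverse.eval s⁻¹ = 0 := by
      have h1 := (eval₂_reverse_eq_zero_iff (RingHom.id L) s (P.map (algebraMap F L))).2
        (by rw [eval₂_id]; exact hroot')
      rw [eval₂_id, invOf_eq_inv] at h1
      exact h1
    apply mem_of_root W s⁻¹ (P.map (algebraMap F L)).reverse _ hrev
    · intro i
      rw [coeff_reverse, coeff_map]
      exact hmem _
    · have h2 : (P.map (algebraMap F L)).reverse.leadingCoeff = algebraMap F L (P.coeff 0) := by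
        rw [reverse_leadingCoeff, trailingCoeff_eq_coeff_zero, coeff_map]
        rw [coeff_map]
        intro h3
        rw [map_eq_zero] at h3
        exact h0 h3
      rw [h2]
      exact (h 0 h0).2
    · intro h3
      rw [reverse_eq_zero] at h3
      exact (hP.map (algebraMap F L)).ne_zero h3

/-- E0: a finitely generated additive subgroup of a ring of characteristic `p` is finite. -/
theorem finite_closure {L : Type u} [Ring L] (p : ℕ) [hp : Fact p.Prime] [CharP L p]
    (R : Set L) (hR : R.Finite) : (AddSubgroup.closure R : Set L).Finite := by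
  induction R, hR using Set.Finite.induction_on with
  | empty => simp
  | @insert a R _ hR ih =>
    rw [Set.insert_eq, AddSubgroup.closure_union, ← AddSubgroup.zmultiples_eq_closure]
    have h1 : ((AddSubgroup.zmultiples a : AddSubgroup L) : Set L).Finite := by
      have h2 : ((AddSubgroup.zmultiples a : AddSubgroup L) : Set L)
          ⊆ Set.range (fun i : Fin p => ((i : ℕ) : L) * a) := by
        rintro x ⟨m, rfl⟩
        have hp0 : (p : ℤ) ≠ 0 := by exact_mod_cast hp.out.ne_zero
        refine ⟨⟨(m % p).toNat, ?_⟩, ?_⟩
        · have := Int.emod_lt_of_pos m (by exact_mod_cast hp.out.pos : (0 : ℤ) < p)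
          have h3 := Int.emod_nonneg m hp0
          omega
        · show (((m % p).toNat : ℕ) : L) * a = m • a
          have h3 := Int.emod_nonneg m hp0
          have h4 : (((m % p).toNat : ℕ) : L) = ((m % p : ℤ) : L) := by
            conv_rhs => rw [← Int.toNat_of_nonneg h3]
            rw [Int.cast_natCast]
          have h5 : ((m % p : ℤ) : L) = (m : L) := by
            have h6 : (m : L) = ((p * (m / p) + m % p : ℤ) : L) := by
              rw [Int.mul_ediv_add_emod]
            have h7 : ((p * (m / p) + m % p : ℤ) : L) = ((m % p : ℤ) : L) := by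
              rw [Int.cast_add, Int.cast_mul, Int.cast_natCast, CharP.cast_eq_zero, zero_mul,
                zero_add]
            rw [h6, h7]
          rw [h4, h5, zsmul_eq_mul]
      exact (Set.finite_range _).subset h2
    rw [AddSubgroup.add_normal]
    exact h1.add ih

/-- E5: a finite group which acts faithfully on a set with all orbits of length `< p` has order
prime to `p`. -/
theorem coprime_of_orbits {G : Type u} [Group G] [Finite G] {R : Type v} [MulAction G R]
    [FaithfulSMul G R] (p : ℕ) [hp : Fact p.Prime]
    (h : ∀ r : R, (MulAction.orbit G r).ncard < p) : (Nat.card G).Coprime p := by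
  rw [Nat.coprime_comm, hp.out.coprime_iff_not_dvd]
  intro hd
  obtain ⟨g, hg⟩ := exists_prime_orderOf_dvd_card' p hd
  have hfix : ∀ r : R, g • r = r := by
    intro r
    have hdvd : MulAction.period g r ∣ p := by
      rw [← hg]
      exact MulAction.period_dvd_orderOf g r
    rcases (Nat.dvd_prime hp.out).1 hdvd with h1 | h1
    · exact MulAction.period_eq_one_iff.1 h1
    · exfalso
      have h2 : Nat.card (MulAction.orbit (Subgroup.zpowers g) r) = p := by
        have hfin : Finite (MulAction.orbit (Subgroup.zpowers g) r) := Set.finite_range _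
        have : Fintype (MulAction.orbit (Subgroup.zpowers g) r) := Fintype.ofFinite _
        rw [Nat.card_eq_fintype_card, ← MulAction.minimalPeriod_eq_card]
        exact h1
      have h3 : (MulAction.orbit (Subgroup.zpowers g) r).ncard ≤ (MulAction.orbit G r).ncard := by
        apply Set.ncard_le_ncard
        · rintro x ⟨y, rfl⟩
          exact ⟨(y : G), rfl⟩
        · exact Set.finite_range _
      rw [← Nat.card_coe_set_eq, h2] at h3
      exact absurd (h r) (not_lt.2 h3)
  have : g = 1 := by
    apply FaithfulSMul.eq_of_smul_eq_smul (α := R)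
    intro r
    rw [hfix, one_smul]
  rw [this, orderOf_one] at hg
  exact hp.out.one_lt.ne hg

end Pool.Agent.TGE58
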