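import Pool.Agent.Lib.TG.Basic

/-!
TANK G, section E, helper58: the model downstairs. For a finite family of pairs `(a i, b i)` let
`W0` be the span of the coefficients of `∏ (a i T + b i)` and `P0 = ∏ span {a i, b i}`. Then `W0`
and `P0` have the same minimal elements for every valuation ring and the same normalised local
rings.
-/

set_option autoImplicit false

namespace Pool.Agent.TGE58

open Polynomial Pool.Agent.TG
open Pool.Agent.LU2 (locV locV_mono)

universe u

variable {k K : Type u} [Field k] [Field K] [Algebra k K] {V : ValuationSubring K}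

/-- An element which lies in all the valuation rings containing `A` is integral over `A`. -/
theorem mem_ncl_of_forall (A : Subalgebra k K) {x : K}
    (h : ∀ W : ValuationSubring K, (∀ a ∈ A, a ∈ W) → x ∈ W) : x ∈ ncl A := by
  have h1 : x ∈ (⨅ V : {V : ValuationSubring K // (A : Set K) ⊆ V.toSubring},
      V.1.toSubring : Subring K) := by
    rw [Subring.mem_iInf]
    rintro ⟨W, hW⟩
    exact h W fun a ha => hW ha
  rw [iInf_valuationSubring_superset] at h1
  have h2 : IsIntegral (Subring.closure (A : Set K)) x := h1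
  have h3 : Subring.closure (A : Set K) ≤ A.toSubring := Subring.closure_le.2 fun a ha => ha
  obtain ⟨p, hp, hpx⟩ := h2
  refine ⟨p.map (Subring.inclusion h3), hp.map _, ?_⟩
  rw [eval₂_map]
  exact hpx

/-- `g` is the largest value of the coefficients of `f`. -/
def MaxC (V : ValuationSubring K) (f : K[X]) (g : V.ValueGroup) : Prop :=
  (∃ i, V.valuation (f.coeff i) = g) ∧ ∀ i, V.valuation (f.coeff i) ≤ g

/-- Gauss' lemma. -/
theorem MaxC.mul {f g : K[X]} {a b : V.ValueGroup} (hf : MaxC V f a) (hg : MaxC V g b)
    (ha : a ≠ 0) (hb : b ≠ 0) : MaxC V (f * g) (a * b) := by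
  classical
  refine ⟨?_, fun n => ?_⟩
  · refine ⟨Nat.find hf.1 + Nat.find hg.1, ?_⟩
    have hi := Nat.find_spec hf.1
    have hj := Nat.find_spec hg.1
    have hi' : ∀ i < Nat.find hf.1, V.valuation (f.coeff i) < a := fun i h =>
      lt_of_le_of_ne (hf.2 i) (Nat.find_min hf.1 h)
    have hj' : ∀ j < Nat.find hg.1, V.valuation (g.coeff j) < b := fun j h =>
      lt_of_le_of_ne (hg.2 j) (Nat.find_min hg.1 h)
    set i0 := Nat.find hf.1
    set j0 := Nat.find hg.1
    have hmem : (i0, j0) ∈ Finset.HasAntidiagonal.antidiagonal (i0 + j0) := by simp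
    rw [coeff_mul, ← Finset.add_sum_erase _ _ hmem]
    have hab : a * b ≠ 0 := mul_ne_zero ha hb
    have h1 : V.valuation (f.coeff i0 * g.coeff j0) = a * b := by
      rw [map_mul, hi, hj]
    have h2 : V.valuation (∑ x ∈ (Finset.HasAntidiagonal.antidiagonal (i0 + j0)).erase (i0, j0),
        f.coeff x.1 * g.coeff x.2) < a * b := by
      apply Valuation.map_sum_lt _ hab
      rintro ⟨i, j⟩ hx
      rw [Finset.mem_erase, Finset.HasAntidiagonal.mem_antidiagonal] at hx
      obtain ⟨hne, hx⟩ := hx
      rw [map_mul]
      rcases lt_or_ge i i0 with h | h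
      · exact (mul_le_mul_right (hg.2 j) _).trans_lt
          (mul_lt_mul_of_pos_right (hi' i h) (zero_lt_iff.2 hb))
      · have hj0 : j < j0 := by
          rcases lt_or_eq_of_le h with h3 | h3
          · simp only at hx
            omega
          · exfalso
            apply hne
            simp only at hx
            rw [← h3] at hx ⊢
            rw [Nat.add_left_cancel hx]
        exact (mul_le_mul_left (hf.2 i) _).trans_lt
          (mul_lt_mul_of_pos_left (hj' j hj0) (zero_lt_iff.2 ha))
    rw [Valuation.map_add_eq_of_lt_left _ (h2.trans_eq h1.symm), h1]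
  · rw [coeff_mul]
    apply Valuation.map_sum_le
    rintro ⟨i, j⟩ -
    rw [map_mul]
    exact mul_le_mul' (hf.2 i) (hg.2 j)

theorem maxC_linear (a b : K) :
    MaxC V (C a * X + C b) (max (V.valuation a) (V.valuation b)) := by
  have hc0 : (C a * X + C b).coeff 0 = b := by simp
  have hc1 : (C a * X + C b).coeff 1 = a := by simp [coeff_C]
  refine ⟨?_, fun i => ?_⟩
  · rcases le_total (V.valuation a) (V.valuation b) with h | h
    · exact ⟨0, by rw [hc0, max_eq_right h]⟩
    · exact ⟨1, by rw [hc1, max_eq_left h]⟩
  · rcases i with _ | _ | i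
    · rw [hc0]; exact le_max_right _ _
    · rw [hc1]; exact le_max_left _ _
    · have : (C a * X + C b).coeff (i + 1 + 1) = 0 := by
        rw [coeff_add, coeff_C_mul, coeff_X, coeff_C]
        simp
      rw [this, map_zero]
      exact zero_le

variable {ι : Type*}

theorem maxC_prod (I : Finset ι) (a b : ι → K) (h : ∀ i ∈ I, a i ≠ 0 ∨ b i ≠ 0) :
    MaxC V (∏ i ∈ I, (C (a i) * X + C (b i)))
      (∏ i ∈ I, max (V.valuation (a i)) (V.valuation (b i))) := by
  classical
  induction I using Finset.induction_on with
  | empty =>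
    rw [Finset.prod_empty, Finset.prod_empty]
    refine ⟨⟨0, by rw [coeff_one_zero, map_one]⟩, fun i => ?_⟩
    rw [coeff_one]
    split_ifs
    · rw [map_one]
    · rw [map_zero]; exact zero_le
  | insert i I hi ih =>
    rw [Finset.prod_insert hi, Finset.prod_insert hi]
    refine MaxC.mul (maxC_linear _ _) (ih fun j hj => h j (Finset.mem_insert_of_mem hj)) ?_ ?_
    · intro h0
      rw [← le_zero_iff, max_le_iff, le_zero_iff, le_zero_iff, map_eq_zero, map_eq_zero] at h0
      rcases h i (Finset.mem_insert_self _ _) with h1 | h1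
      · exact h1 h0.1
      · exact h1 h0.2
    · rw [Finset.prod_ne_zero_iff]
      intro j hj h0
      rw [← le_zero_iff, max_le_iff, le_zero_iff, le_zero_iff, map_eq_zero, map_eq_zero] at h0
      rcases h j (Finset.mem_insert_of_mem hj) with h1 | h1
      · exact h1 h0.1
      · exact h1 h0.2

/-- The coefficient space of `∏ (a i T + b i)`. -/
def cspan (k : Type u) {K : Type u} [Field k] [Field K] [Algebra k K] {ι : Type*} (I : Finset ι)
    (a b : ι → K) : Submodule k K :=
  Submodule.span k (Set.range (∏ i ∈ I, (C (a i) * X + C (b i))).coeff)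

/-- The join of the pairs `(a i, b i)`. -/
def pspan (k : Type u) {K : Type u} [Field k] [Field K] [Algebra k K] {ι : Type*} (I : Finset ι)
    (a b : ι → K) : Submodule k K :=
  ∏ i ∈ I, Submodule.span k {a i, b i}

theorem coeff_mem_pspan (I : Finset ι) (a b : ι → K) (n : ℕ) :
    (∏ i ∈ I, (C (a i) * X + C (b i))).coeff n ∈ pspan k I a b := by
  classical
  induction I using Finset.induction_on generalizing n with
  | empty =>
    rw [pspan, Finset.prod_empty, Finset.prod_empty, coeff_one]
    split_ifs
    · exact Submodule.one_le.1 le_rfl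
    · exact Submodule.zero_mem _
  | insert i I hi ih =>
    rw [pspan, Finset.prod_insert hi, Finset.prod_insert hi, coeff_mul]
    refine Submodule.sum_mem _ fun x _ => Submodule.mul_mem_mul ?_ (ih x.2)
    rcases hx : x.1 with _ | _ | m
    · have : (C (a i) * X + C (b i)).coeff 0 = b i := by simp
      rw [this]
      exact Submodule.subset_span (Or.inr rfl)
    · have : (C (a i) * X + C (b i)).coeff (0 + 1) = a i := by simp [coeff_C]
      rw [this]
      exact Submodule.subset_span (Or.inl rfl)
    · have : (C (a i) * X + C (b i)).coeff (m + 1 + 1) = 0 := by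
        rw [coeff_add, coeff_C_mul, coeff_X, coeff_C]
        simp
      rw [this]
      exact Submodule.zero_mem _

theorem cspan_le_pspan (I : Finset ι) (a b : ι → K) : cspan k I a b ≤ pspan k I a b := by
  rw [cspan, Submodule.span_le]
  rintro _ ⟨n, rfl⟩
  exact coeff_mem_pspan I a b n

theorem val_le_of_mem_pspan (hV : Ov k V) (I : Finset ι) (a b : ι → K) {g : K}
    (hg : g ∈ pspan k I a b) :
    V.valuation g ≤ ∏ i ∈ I, max (V.valuation (a i)) (V.valuation (b i)) := by
  classical
  have hc : ∀ (c : k) (x : K), V.valuation (c • x) ≤ V.valuation x := by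
    intro c x
    rw [Algebra.smul_def, map_mul]
    calc V.valuation (algebraMap k K c) * V.valuation x ≤ 1 * V.valuation x := by
          gcongr
          exact (V.valuation_le_one_iff _).2 (hV c)
      _ = V.valuation x := one_mul _
  induction I using Finset.induction_on generalizing g with
  | empty =>
    rw [pspan, Finset.prod_empty] at hg
    obtain ⟨c, rfl⟩ := Submodule.mem_one.1 hg
    rw [Finset.prod_empty]
    exact (V.valuation_le_one_iff _).2 (hV c)
  | insert i I hi ih =>
    rw [pspan, Finset.prod_insert hi] at hg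
    rw [Finset.prod_insert hi]
    induction hg using Submodule.mul_induction_on' with
    | mem_mul_mem m hm n hn =>
      rw [map_mul]
      refine mul_le_mul' ?_ (ih hn)
      induction hm using Submodule.span_induction with
      | mem x hx =>
        rcases hx with rfl | rfl
        · exact le_max_left _ _
        · exact le_max_right _ _
      | zero => rw [map_zero]; exact zero_le
      | add x y _ _ hx hy => exact (Valuation.map_add _ _ _).trans (max_le hx hy)
      | smul c x _ hx => exact (hc c x).trans hx
    | add x _ y _ hx hy => exact (Valuation.map_add _ _ _).trans (max_le hx hy)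

/-- **The minimal elements of the coefficient space are minimal in the join.** -/
theorem isMin_pspan (hV : Ov k V) (I : Finset ι) (a b : ι → K) (h : ∀ i ∈ I, a i ≠ 0 ∨ b i ≠ 0)
    {w : K} (hw : IsMin V (cspan k I a b) w) : IsMin V (pspan k I a b) w := by
  refine ⟨cspan_le_pspan I a b hw.mem, hw.ne, fun g hg => ?_⟩
  rw [← V.valuation_le_one_iff, map_div₀]
  obtain ⟨⟨n, hn⟩, -⟩ := maxC_prod (V := V) I a b h
  have h1 := hw.div _ (Submodule.subset_span ⟨n, rfl⟩)
  rw [← V.valuation_le_one_iff, map_div₀, hn] at h1
  exact (div_le_div_of_nonneg_right (val_le_of_mem_pspan hV I a b hg) zero_le).trans h1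

theorem ncl_ch_pspan (I : Finset ι) (a b : ι → K) (h : ∀ i ∈ I, a i ≠ 0 ∨ b i ≠ 0)
    {w : K} (hw : w ∈ cspan k I a b) (hw0 : w ≠ 0) :
    ncl (ch (pspan k I a b) w) = ncl (ch (cspan k I a b) w) := by
  refine le_antisymm ?_ (ncl_mono ?_)
  · rw [← ncl_ncl (ch (cspan k I a b) w)]
    refine ncl_mono ?_
    rw [ch_le_iff]
    intro g hg
    refine mem_ncl_of_forall _ fun W hW => ?_
    have hV : Ov k W := fun c => hW _ (Subalgebra.algebraMap_mem _ c)
    exact (isMin_pspan hV I a b h ⟨hw, hw0, fun g hg => hW _ (div_mem_ch hg)⟩).div g hg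
  · rw [ch_le_iff]
    intro g hg
    exact div_mem_ch (cspan_le_pspan I a b hg)

theorem cspan_isModel (I : Finset ι) (a b : ι → K) (h : ∀ i ∈ I, a i ≠ 0 ∨ b i ≠ 0) :
    IsModel (cspan k I a b) := by
  classical
  set F := ∏ i ∈ I, (C (a i) * X + C (b i)) with hF
  refine ⟨?_, fun h0 => ?_⟩
  · have h1 : Set.range F.coeff ⊆ insert 0 (F.coeffs : Set K) := by
      rintro _ ⟨n, rfl⟩
      by_cases hn : F.coeff n = 0
      · left; exact hn
      · right; exact coeff_mem_coeffs hn
    have h2 : cspan k I a b = Submodule.span k ((insert 0 F.coeffs : Finset K) : Set K) := by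
      rw [cspan, Finset.coe_insert]
      refine le_antisymm (Submodule.span_mono h1) (Submodule.span_le.2 ?_)
      rintro x (rfl | hx)
      · exact Submodule.zero_mem _
      · obtain ⟨n, -, rfl⟩ := mem_coeffs_iff.1 hx
        exact Submodule.subset_span ⟨n, rfl⟩
    rw [h2]
    exact ⟨_, rfl⟩
  · have h1 : F ≠ 0 := by
      rw [hF, Finset.prod_ne_zero_iff]
      intro i hi h2
      have h3 : (C (a i) * X + C (b i)).coeff 0 = 0 := by rw [h2, coeff_zero]
      have h4 : (C (a i) * X + C (b i)).coeff 1 = 0 := by rw [h2, coeff_zero]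
      rcases h i hi with h5 | h5
      · exact h5 (by simpa [coeff_C] using h4)
      · exact h5 (by simpa using h3)
    apply h1
    ext n
    rw [coeff_zero]
    have h2 : F.coeff n ∈ cspan k I a b := Submodule.subset_span ⟨n, rfl⟩
    rw [h0] at h2
    exact (Submodule.mem_bot k).1 h2

/-- **The normalised local rings agree.** -/
theorem NV_pspan (hV : Ov k V) (I : Finset ι) (a b : ι → K) (h : ∀ i ∈ I, a i ≠ 0 ∨ b i ≠ 0) :
    NV V (pspan k I a b) = NV V (cspan k I a b) := by
  obtain ⟨w, hw⟩ := exists_isMin hV (cspan_isModel (k := k) I a b h)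
  rw [NV_eq hw, NV_eq (isMin_pspan hV I a b h hw), chN, chN, ncl_ch_pspan I a b h hw.mem hw.ne]

end Pool.Agent.TGE58
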