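import Mathlib

/-!
TANK G, helper58: LEMMA M, first half (any ring, any rank). If `r` is a root of a polynomial whose
coefficients `c i` satisfy `c i / c j ∈ R` for one `j`, then there are `A`, `B` integral over `R`
with `A - r B = 1` such that `r A` and `r B` are integral over `R`. Hence `r` or `1 / r` lies in
every localisation of the integral closure at the centre of a valuation.
-/

set_option autoImplicit false

namespace Pool.Agent.TGE58

open Polynomial

universe u

variable {L : Type u} [Field L]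

/-- An element of all the valuation rings containing the subring `R` is integral over `R`. -/
theorem isIntegral_of_forall (R : Subring L) {x : L}
    (h : ∀ W : ValuationSubring L, (∀ a ∈ R, a ∈ W) → x ∈ W) : IsIntegral R x := by
  have h1 : x ∈ (⨅ V : {V : ValuationSubring L // (R : Set L) ⊆ V.toSubring},
      V.1.toSubring : Subring L) := by
    rw [Subring.mem_iInf]
    rintro ⟨W, hW⟩
    exact h W fun a ha => hW ha
  rw [iInf_valuationSubring_superset] at h1
  have h2 : IsIntegral (Subring.closure (R : Set L)) x := h1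
  have h3 : Subring.closure (R : Set L) ≤ R := Subring.closure_le.2 fun a ha => ha
  obtain ⟨p, hp, hpx⟩ := h2
  refine ⟨p.map (Subring.inclusion h3), hp.map _, ?_⟩
  rw [eval₂_map]
  exact hpx

/-- The Horner elements. -/
theorem horner_int (R : Subring L) (P : L[X]) (r : L) (hr : P.eval r = 0) (j : ℕ)
    (hj : P.coeff j ≠ 0) (h : ∀ i, P.coeff i / P.coeff j ∈ R) :
    ∃ A B : L, A - r * B = 1 ∧ IsIntegral R A ∧ IsIntegral R B ∧ IsIntegral R (r * A) ∧
      IsIntegral R (r * B) ∧
      ∀ E : Subring L, (∀ i, P.coeff i / P.coeff j ∈ E) → r ∈ E → A ∈ E ∧ B ∈ E := by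
  set c : ℕ → L := fun i => P.coeff i / P.coeff j with hc
  set m := P.natDegree with hm
  have hcj : c j = 1 := div_self hj
  have hjm : j ≤ m := le_natDegree_of_ne_zero hj
  -- the upper parts
  set A : L := ∑ i ∈ Finset.Ico j (m + 1), c i * r ^ (i - j) with hA
  set B : L := ∑ i ∈ Finset.Ico (j + 1) (m + 1), c i * r ^ (i - j - 1) with hB
  have hAB : A = 1 + r * B := by
    rw [hA, Finset.sum_eq_sum_Ico_succ_bot (by omega), hcj, Nat.sub_self, pow_zero, one_mul, hB,
      Finset.mul_sum]
    congr 1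
    refine Finset.sum_congr rfl fun i hi => ?_
    rw [Finset.mem_Ico] at hi
    have : i - j = (i - j - 1) + 1 := by omega
    rw [this, pow_succ, Nat.add_sub_cancel]
    ring
  -- the relation
  have hrel : ∑ i ∈ Finset.range (m + 1), c i * r ^ i = 0 := by
    have h1 : ∑ i ∈ Finset.range (m + 1), c i * r ^ i = P.eval r / P.coeff j := by
      rw [eval_eq_sum_range, Finset.sum_div]
      refine Finset.sum_congr rfl fun i _ => ?_
      rw [hc]
      ring
    rw [h1, hr, zero_div]
  have hsplit : r ^ j * A = - ∑ i ∈ Finset.range j, c i * r ^ i := by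
    rw [← Finset.sum_range_add_sum_Ico _ (by omega : j ≤ m + 1)] at hrel
    rw [eq_neg_iff_add_eq_zero, add_comm, ← hrel, hA, Finset.mul_sum]
    congr 1
    refine Finset.sum_congr rfl fun i hi => ?_
    rw [Finset.mem_Ico] at hi
    have : r ^ i = r ^ j * r ^ (i - j) := by rw [← pow_add]; congr 1; omega
    rw [this]
    ring
  have hlow : ∀ W : ValuationSubring L, (∀ a ∈ R, a ∈ W) → r ≠ 0 → r⁻¹ ∈ W → A ∈ W ∧ r * A ∈ W := by
    intro W hW hr0 hri
    have h1 : A = - ∑ i ∈ Finset.range j, c i * r⁻¹ ^ (j - i) := by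
      have h2 : r ^ j ≠ 0 := pow_ne_zero _ hr0
      apply mul_left_cancel₀ h2
      rw [hsplit, mul_neg, Finset.mul_sum]
      congr 1
      refine Finset.sum_congr rfl fun i hi => ?_
      rw [Finset.mem_range] at hi
      have h3 : r ^ j = r ^ i * r ^ (j - i) := by rw [← pow_add]; congr 1; omega
      rw [h3, inv_pow]
      field_simp
    have h4 : r * A = - ∑ i ∈ Finset.range j, c i * r⁻¹ ^ (j - i - 1) := by
      rw [h1, mul_neg, Finset.mul_sum]
      congr 1
      refine Finset.sum_congr rfl fun i hi => ?_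
      rw [Finset.mem_range] at hi
      have h3 : r⁻¹ ^ (j - i) = r⁻¹ ^ (j - i - 1) * r⁻¹ := by
        rw [← pow_succ]; congr 1; omega
      rw [h3]
      field_simp
    refine ⟨?_, ?_⟩
    · rw [h1]
      exact W.neg_mem _ (sum_mem fun i _ => W.mul_mem _ _ (hW _ (h i)) (pow_mem hri _))
    · rw [h4]
      exact W.neg_mem _ (sum_mem fun i _ => W.mul_mem _ _ (hW _ (h i)) (pow_mem hri _))
  have hrB : r * B = A - 1 := by rw [hAB]; ring
  have hcase : ∀ W : ValuationSubring L, (∀ a ∈ R, a ∈ W) → A ∈ W ∧ B ∈ W ∧ r * A ∈ W := by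
    intro W hW
    rcases W.mem_or_inv_mem r with h1 | h1
    · have hAW : A ∈ W := sum_mem fun i _ => W.mul_mem _ _ (hW _ (h i)) (pow_mem h1 _)
      have hBW : B ∈ W := sum_mem fun i _ => W.mul_mem _ _ (hW _ (h i)) (pow_mem h1 _)
      exact ⟨hAW, hBW, W.mul_mem _ _ h1 hAW⟩
    · by_cases hr0 : r = 0
      · have h1' : r ∈ W := by rw [hr0]; exact W.zero_mem
        have hAW : A ∈ W := sum_mem fun i _ => W.mul_mem _ _ (hW _ (h i)) (pow_mem h1' _)
        have hBW : B ∈ W := sum_mem fun i _ => W.mul_mem _ _ (hW _ (h i)) (pow_mem h1' _)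
        exact ⟨hAW, hBW, W.mul_mem _ _ h1' hAW⟩
      · obtain ⟨h2, h3⟩ := hlow W hW hr0 h1
        refine ⟨h2, ?_, h3⟩
        have h4 : B = r⁻¹ * (A - 1) := by rw [← hrB]; field_simp
        rw [h4]
        exact W.mul_mem _ _ h1 (sub_mem h2 W.one_mem)
  refine ⟨A, B, by rw [hAB]; ring, isIntegral_of_forall R fun W hW => (hcase W hW).1,
    isIntegral_of_forall R fun W hW => (hcase W hW).2.1,
    isIntegral_of_forall R fun W hW => (hcase W hW).2.2, ?_, ?_⟩
  · refine isIntegral_of_forall R fun W hW => ?_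
    rw [hrB]
    exact sub_mem (hcase W hW).1 W.one_mem
  · intro E hE hrE
    exact ⟨sum_mem fun i _ => mul_mem (hE i) (pow_mem hrE _),
      sum_mem fun i _ => mul_mem (hE i) (pow_mem hrE _)⟩

/-- **Lemma M, first half.** `V` a valuation ring containing `R`: `r` or `1 / r` is a fraction
`a / b` with `a`, `b` integral over `R` and `b` a unit of `V`. -/
theorem ratio_or_inv (V : ValuationSubring L) (R : Subring L) (hR : ∀ a ∈ R, a ∈ V) (P : L[X])
    (r : L) (hr : P.eval r = 0) (j : ℕ) (hj : P.coeff j ≠ 0)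
    (h : ∀ i, P.coeff i / P.coeff j ∈ R) :
    (∃ a b : L, IsIntegral R a ∧ IsIntegral R b ∧ V.valuation b = 1 ∧ r = a / b ∧
      ∀ E : Subring L, (∀ i, P.coeff i / P.coeff j ∈ E) → r ∈ E → a ∈ E ∧ b ∈ E) ∨
    (∃ a b : L, IsIntegral R a ∧ IsIntegral R b ∧ V.valuation b = 1 ∧ r⁻¹ = a / b ∧
      ∀ E : Subring L, (∀ i, P.coeff i / P.coeff j ∈ E) → r ∈ E → a ∈ E ∧ b ∈ E) := by
  obtain ⟨A, B, h1, hA, hB, hrA, hrB, hE⟩ := horner_int R P r hr j hj h
  have hint : ∀ x : L, IsIntegral R x → V.valuation x ≤ 1 := by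
    intro x hx
    rw [V.valuation_le_one_iff]
    obtain ⟨p, hp, hpx⟩ := hx
    have h2 : IsIntegral V x := by
      refine ⟨p.map (Subring.inclusion (S := R) (T := V.toSubring) hR), hp.map _, ?_⟩
      rw [eval₂_map]
      exact hpx
    obtain ⟨y, hy⟩ := (IsIntegrallyClosed.isIntegral_iff (R := V) (K := L)).1 h2
    rw [← hy]
    exact y.2
  by_cases hvA : V.valuation A = 1
  · left
    refine ⟨r * A, A, hrA, hA, hvA, ?_, fun E h2 h3 => ⟨mul_mem h3 (hE E h2 h3).1, (hE E h2 h3).1⟩⟩
    have hA0 : A ≠ 0 := by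
      rintro rfl
      rw [map_zero] at hvA
      exact zero_ne_one hvA
    field_simp
  · right
    have hvB : V.valuation (r * B) = 1 := by
      have h2 : V.valuation A < 1 := lt_of_le_of_ne (hint A hA) hvA
      have h3 : r * B = A - 1 := by rw [← h1]; ring
      have h5 : V.valuation A < V.valuation (-1 : L) := by
        rw [Valuation.map_neg, map_one]
        exact h2
      have h4 : V.valuation (A + -1) = V.valuation (-1 : L) :=
        Valuation.map_add_eq_of_lt_right _ h5
      rw [h3, sub_eq_add_neg, h4, Valuation.map_neg, map_one]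
    refine ⟨B, r * B, hB, hrB, hvB, ?_, fun E h2 h3 => ⟨(hE E h2 h3).2, mul_mem h3 (hE E h2 h3).2⟩⟩
    have hrB0 : r * B ≠ 0 := by
      intro h4
      rw [h4, map_zero] at hvB
      exact zero_ne_one hvB
    have hr0 : r ≠ 0 := left_ne_zero_of_mul hrB0
    have hB0 : B ≠ 0 := right_ne_zero_of_mul hrB0
    field_simp

end Pool.Agent.TGE58
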